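import Pool.Agent.Helper68.SK.Goals

/-!
PROJECT SK (MP_2b0227_gt), packet PEQ: partial equivalence relations and sums of squares.
-/

set_option autoImplicit false

namespace Pool.Agent.Helper53.SK

open Finset Pool.Agent.Helper52.C2 Pool.Agent.Helper68.SK

open Classical in
theorem psum {ι : Type} [Fintype ι] (N : ι → ι → Prop) (Ns : ∀ a b, N a b → N b a)
    (Nt : ∀ a b c, N a b → N b c → N a c) (v : ι → ℝ) :
    0 ≤ ∑ a, ∑ b, if N a b then v a * v b else 0 := by
  let cl : ι → Finset ι := fun a => univ.filter (fun b => N a b)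
  have hcl : ∀ a b, b ∈ cl a ↔ N a b := fun a b => by simp [cl]
  let f : Finset ι → ι → ℝ := fun K a => if N a a ∧ cl a = K then v a else 0
  have key : ∀ a b, ∑ K : Finset ι, f K a * f K b = if N a b then v a * v b else 0 := by
    intro a b
    by_cases h : N a b
    · have haa : N a a := Nt _ _ _ h (Ns _ _ h)
      have hbb : N b b := Nt _ _ _ (Ns _ _ h) h
      have hab : cl a = cl b := by
        ext c
        rw [hcl, hcl]
        exact ⟨fun h' => Nt _ _ _ (Ns _ _ h) h', fun h' => Nt _ _ _ h h'⟩
      rw [if_pos h, Finset.sum_eq_single (cl a)]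
      · simp [f, haa, hbb, hab]
      · intro K _ hK
        have : ¬ (N a a ∧ cl a = K) := fun h' => hK h'.2.symm
        simp only [f]
        rw [if_neg this, zero_mul]
      · intro h'
        exact absurd (Finset.mem_univ _) h'
    · rw [if_neg h]
      refine Finset.sum_eq_zero fun K _ => ?_
      by_cases ha : N a a ∧ cl a = K
      · by_cases hb : N b b ∧ cl b = K
        · exfalso
          have : b ∈ cl b := (hcl b b).2 hb.1
          rw [hb.2, ← ha.2] at this
          exact h ((hcl a b).1 this)
        · simp only [f]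
          rw [if_neg hb, mul_zero]
      · simp only [f]
        rw [if_neg ha, zero_mul]
  have e : ∑ a, ∑ b, (if N a b then v a * v b else 0) = ∑ K : Finset ι, (∑ a, f K a) ^ 2 := by
    calc ∑ a, ∑ b, (if N a b then v a * v b else 0)
        = ∑ a, ∑ b, ∑ K : Finset ι, f K a * f K b :=
          Finset.sum_congr rfl fun a _ => Finset.sum_congr rfl fun b _ => (key a b).symm
      _ = ∑ a, ∑ K : Finset ι, ∑ b, f K a * f K b :=
          Finset.sum_congr rfl fun a _ => Finset.sum_comm
      _ = ∑ K : Finset ι, ∑ a, ∑ b, f K a * f K b := Finset.sum_comm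
      _ = ∑ K : Finset ι, (∑ a, f K a) ^ 2 :=
          Finset.sum_congr rfl fun K _ => by rw [sq, Finset.sum_mul_sum]
  rw [e]
  exact Finset.sum_nonneg fun K _ => sq_nonneg _

open Classical in
theorem peq : GoalPeq := by
  intro ι _ _ ok M h01 hsym htr
  let act : ι → Prop := fun a => ok a ∧ ∃ d, ok d ∧ M a d ≠ 0
  obtain ⟨N, hNd⟩ : ∃ N : ι → ι → Prop, ∀ a b, N a b ↔ act a ∧ act b ∧ M a b = 0 :=
    ⟨_, fun _ _ => Iff.rfl⟩
  have Ns : ∀ a b, N a b → N b a := fun a b h => by
    rw [hNd] at h ⊢
    exact ⟨h.2.1, h.1, (hsym b a).trans h.2.2⟩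
  have Nt : ∀ a b c, N a b → N b c → N a c := by
    intro a b c h1 h2
    rw [hNd] at h1 h2 ⊢
    obtain ⟨ha, hb, hab⟩ := h1
    obtain ⟨_, hc, hbc⟩ := h2
    obtain ⟨d, hd, hbd⟩ := hb.2
    exact ⟨ha, hc, htr a b c d ha.1 hb.1 hc.1 hd hab hbc hbd⟩
  refine ⟨fun a => if act a then 1 else 0, fun v hv hl => ?_⟩
  have hS : 0 ≤ ∑ a, ∑ b, if N a b then v a * v b else 0 := psum N Ns Nt v
  have hz : ∀ a b, ¬ act a → v a * M a b * v b = 0 := by
    intro a b ha
    by_cases h1 : ok a
    · by_cases h2 : ok b
      · have : M a b = 0 := by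
          by_contra h3
          exact ha ⟨h1, b, h2, h3⟩
        rw [this, mul_zero, zero_mul]
      · rw [hv b h2, mul_zero]
    · rw [hv a h1, zero_mul, zero_mul]
  have hq : quad M v = (∑ a, (if act a then 1 else 0) * v a) ^ 2
      - ∑ a, ∑ b, if N a b then v a * v b else 0 := by
    rw [sq, Finset.sum_mul_sum, ← Finset.sum_sub_distrib, quad]
    refine Finset.sum_congr rfl fun a _ => ?_
    rw [← Finset.sum_sub_distrib]
    refine Finset.sum_congr rfl fun b _ => ?_
    by_cases ha : act a
    · by_cases hb : act b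
      · rcases h01 a b with h | h
        · have hN : N a b := (hNd a b).2 ⟨ha, hb, h⟩
          rw [if_pos ha, if_pos hb, if_pos hN, h]
          ring
        · have hN : ¬ N a b := fun h' => by
            have := ((hNd a b).1 h').2.2
            rw [h] at this
            exact one_ne_zero this
          rw [if_pos ha, if_pos hb, if_neg hN, h]
          ring
      · have hN : ¬ N a b := fun h' => hb ((hNd a b).1 h').2.1
        have e : v a * M a b * v b = 0 := by
          have := hz b a hb
          rw [hsym b a] at this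
          linarith
        rw [if_neg hb, if_neg hN, e]
        ring
    · have hN : ¬ N a b := fun h' => ha ((hNd a b).1 h').1
      rw [if_neg ha, if_neg hN, hz a b ha]
      ring
  rw [hq, hl]
  linarith

end Pool.Agent.Helper53.SK
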